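import Pool.Agent.Helper13.FKM.Final

/-!
# Faber-Krahn inequality for the infinite-mass Dirac operator, all bounded smooth domains

`Ω = {φ < 0}` is a bounded open set of the plane with smooth boundary `{φ = 0}` (`φ` smooth, zero a
regular value). It need not be connected and may have holes. There is a constant `c > 0` such that
`c / r` is an eigenvalue of the disc of radius `r` for every `r > 0`, and every positive eigenvalue
`ν` of every such `Ω` satisfies `π c² ≤ ν² |Ω|`. So the disc minimises the product of the first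
positive eigenvalue and the square root of the area.
-/

set_option autoImplicit false

open Complex MeasureTheory Set Metric

namespace Pool.Agent.Results.MP_5536b7_mp.AllDomains

/-- `ν` is an eigenvalue of the infinite-mass Dirac operator of `{φ < 0}`: there is a pair
`(u₁, u₂)`, smooth up to the boundary and not identically zero, with
`-i ∂₁ u₂ - ∂₂ u₂ = ν u₁` and `-i ∂₁ u₁ + ∂₂ u₁ = ν u₂` inside and `i (n₁ + i n₂) u₁ = u₂` on the
boundary, where `n = ∇φ / |∇φ|` is the outward unit normal -/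
def IsEigenvalue (φ : ℝ × ℝ → ℝ) (ν : ℝ) : Prop :=
  ∃ u₁ u₂ : ℝ × ℝ → ℂ,
    (∀ k : ℕ, ContDiff ℝ k u₁) ∧ (∀ k : ℕ, ContDiff ℝ k u₂) ∧
    (∃ x, φ x < 0 ∧ (u₁ x ≠ 0 ∨ u₂ x ≠ 0)) ∧
    (∀ x, φ x < 0 →
      -Complex.I * fderiv ℝ u₂ x (1, 0) - fderiv ℝ u₂ x (0, 1) = (ν : ℂ) * u₁ x ∧
      -Complex.I * fderiv ℝ u₁ x (1, 0) + fderiv ℝ u₁ x (0, 1) = (ν : ℂ) * u₂ x) ∧
    (∀ x, φ x = 0 →
      Complex.I *
        (((fderiv ℝ φ x (1, 0) /
            Real.sqrt (fderiv ℝ φ x (1, 0) ^ 2 + fderiv ℝ φ x (0, 1) ^ 2) : ℝ) : ℂ) +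
         Complex.I *
          ((fderiv ℝ φ x (0, 1) /
            Real.sqrt (fderiv ℝ φ x (1, 0) ^ 2 + fderiv ℝ φ x (0, 1) ^ 2) : ℝ) : ℂ)) *
        u₁ x = u₂ x)

theorem disc_case {X r : ℝ} (hX : Pool.Agent.FK.Profile X) (hr : 0 < r) :
    IsEigenvalue (fun x => x.1 ^ 2 + x.2 ^ 2 - r ^ 2) (X / r) := by
  obtain ⟨v₁, v₂, h1, h2, ⟨x, hx, hne⟩, heq, hbc⟩ := Pool.Agent.FK.disc_eig hX hr
  refine ⟨v₁, v₂, h1, h2, ⟨x, by simpa using hx, hne⟩, fun x hx => heq x (by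
    have : x.1 ^ 2 + x.2 ^ 2 - r ^ 2 < 0 := hx
    linarith), ?_⟩
  intro x hx
  have hx' : x.1 ^ 2 + x.2 ^ 2 = r ^ 2 := by
    have : x.1 ^ 2 + x.2 ^ 2 - r ^ 2 = 0 := hx
    linarith
  have hd : HasFDerivAt (fun x : ℝ × ℝ => x.1 ^ 2 + x.2 ^ 2 - r ^ 2)
      ((2 * x.1) • ContinuousLinearMap.fst ℝ ℝ ℝ + (2 * x.2) • ContinuousLinearMap.snd ℝ ℝ ℝ)
      x := by
    have e1 : HasFDerivAt (fun x : ℝ × ℝ => x.1) (ContinuousLinearMap.fst ℝ ℝ ℝ) x :=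
      hasFDerivAt_fst
    have e2 : HasFDerivAt (fun x : ℝ × ℝ => x.2) (ContinuousLinearMap.snd ℝ ℝ ℝ) x :=
      hasFDerivAt_snd
    have e3 := ((e1.pow 2).add (e2.pow 2)).sub_const (r ^ 2)
    refine e3.congr_fderiv ?_
    refine ContinuousLinearMap.ext fun v => ?_
    simp
  rw [hd.fderiv]
  have g1 : ((2 * x.1) • ContinuousLinearMap.fst ℝ ℝ ℝ +
      (2 * x.2) • ContinuousLinearMap.snd ℝ ℝ ℝ) ((1, 0) : ℝ × ℝ) = 2 * x.1 := by simp
  have g2 : ((2 * x.1) • ContinuousLinearMap.fst ℝ ℝ ℝ +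
      (2 * x.2) • ContinuousLinearMap.snd ℝ ℝ ℝ) ((0, 1) : ℝ × ℝ) = 2 * x.2 := by simp
  rw [g1, g2]
  have hs : Real.sqrt ((2 * x.1) ^ 2 + (2 * x.2) ^ 2) = 2 * r := by
    have : (2 * x.1) ^ 2 + (2 * x.2) ^ 2 = (2 * r) ^ 2 := by nlinarith
    rw [this, Real.sqrt_sq (by positivity)]
  rw [hs]
  have e1 : 2 * x.1 / (2 * r) = x.1 / r := by
    rw [mul_div_mul_left _ _ two_ne_zero]
  have e2 : 2 * x.2 / (2 * r) = x.2 / r := by
    rw [mul_div_mul_left _ _ two_ne_zero]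
  rw [e1, e2]
  exact hbc x hx'

/-- **Faber-Krahn inequality for the infinite-mass Dirac operator.** -/
theorem result :
    ∃ c : ℝ, 0 < c ∧
      (∀ r : ℝ, 0 < r → IsEigenvalue (fun x => x.1 ^ 2 + x.2 ^ 2 - r ^ 2) (c / r)) ∧
      ∀ φ : ℝ × ℝ → ℝ, (∀ k : ℕ, ContDiff ℝ k φ) →
        (∀ x, φ x = 0 → fderiv ℝ φ x ≠ 0) →
        Bornology.IsBounded {x | φ x < 0} →
        ∀ ν : ℝ, 0 < ν → IsEigenvalue φ ν →
          Real.pi * c ^ 2 ≤ ν ^ 2 * volume.real {x | φ x < 0} := by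
  obtain ⟨X, hX⟩ := Pool.Agent.FK.exists_profile
  refine ⟨X, hX.pos, fun r hr => disc_case hX hr, ?_⟩
  intro φ hφ hnd hbd ν hν ⟨u₁, u₂, h₁, h₂, hne, he, hbc⟩
  set Ω : Set (ℝ × ℝ) := {x | φ x < 0} with hΩ
  have hopen : IsOpen Ω := by
    rw [hΩ]
    exact isOpen_lt (hφ 0).continuous continuous_const
  set Ω' : Set ℂ := {z : ℂ | (z.re, z.im) ∈ Ω} with hΩ'
  have hsol := Pool.Agent.FK.toSol hν hopen h₁ h₂ he
  have hΩ'' : Ω' = {z : ℂ | φ (z.re, z.im) < 0} := by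
    rw [hΩ', hΩ]; rfl
  have hφ1 : ContDiff ℝ 1 φ := by exact_mod_cast hφ 1
  have hsm : ∀ k : ℕ, ContDiff ℝ k (fun z : ℂ => (z.re, z.im)) := fun k =>
    Complex.equivRealProdCLM.contDiff
  have hφ' : ∀ k : ℕ, ContDiff ℝ k (fun z : ℂ => φ (z.re, z.im)) := fun k =>
    (hφ k).comp (hsm k)
  have hbd' : Bornology.IsBounded Ω' := by
    obtain ⟨R, hR⟩ := hbd.subset_closedBall (0 : ℝ × ℝ)
    rw [isBounded_iff_forall_norm_le]
    refine ⟨R + R, fun z hz => ?_⟩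
    have h1 := hR hz
    rw [mem_closedBall, dist_zero_right, Prod.norm_def, max_le_iff] at h1
    have h2 := Complex.norm_le_abs_re_add_abs_im z
    simp only [Real.norm_eq_abs] at h1
    linarith [h1.1, h1.2]
  have hnd' : ∀ z : ℂ, φ (z.re, z.im) = 0 → fderiv ℝ (fun z : ℂ => φ (z.re, z.im)) z ≠ 0 := by
    intro z hz h0
    apply hnd _ hz
    ext w
    · have := Pool.Agent.FKM.conv_gr hφ1 z 1
      rw [h0] at this
      simpa using this.symm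
    · have := Pool.Agent.FKM.conv_gr hφ1 z I
      rw [h0] at this
      simpa using this.symm
  have hne' : ∃ z ∈ Ω', u₁ (z.re, z.im) ≠ 0 ∨ u₂ (z.re, z.im) ≠ 0 := by
    obtain ⟨x, hx, h⟩ := hne
    exact ⟨⟨x.1, x.2⟩, hx, h⟩
  have hbc' : ∀ z : ℂ, φ (z.re, z.im) = 0 →
      I * (Pool.Agent.FKM.gr (fun z : ℂ => φ (z.re, z.im)) z /
        (‖Pool.Agent.FKM.gr (fun z : ℂ => φ (z.re, z.im)) z‖ : ℂ)) * u₁ (z.re, z.im) =
          u₂ (z.re, z.im) := by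
    intro z hz
    rw [← hbc _ hz]
    congr 2
    have e1 : Pool.Agent.FKM.gr (fun z : ℂ => φ (z.re, z.im)) z =
        ((fderiv ℝ φ (z.re, z.im) (1, 0) : ℝ) : ℂ) +
          I * ((fderiv ℝ φ (z.re, z.im) (0, 1) : ℝ) : ℂ) := by
      unfold Pool.Agent.FKM.gr
      rw [Pool.Agent.FKM.conv_gr hφ1, Pool.Agent.FKM.conv_gr hφ1]
      apply Complex.ext <;> simp
    have e2 : ‖Pool.Agent.FKM.gr (fun z : ℂ => φ (z.re, z.im)) z‖ =
        Real.sqrt (fderiv ℝ φ (z.re, z.im) (1, 0) ^ 2 + fderiv ℝ φ (z.re, z.im) (0, 1) ^ 2) := by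
      unfold Pool.Agent.FKM.gr
      rw [Pool.Agent.FKM.conv_gr hφ1, Pool.Agent.FKM.conv_gr hφ1, Complex.norm_def,
        Complex.normSq_apply]
      congr 1
      simp only [Complex.one_re, Complex.one_im, Complex.I_re, Complex.I_im]
      ring
    rw [e2, e1]
    push_cast
    ring
  have key := Pool.Agent.FKM.fk_core hX hsol hφ' hΩ'' hbd' hnd' hne' hbc'
  have hv : volume.real Ω' = volume.real Ω := by
    unfold Measure.real
    rw [hΩ', Pool.Agent.FK.volume_conv Ω hopen.measurableSet]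
  rwa [hv] at key

end Pool.Agent.Results.MP_5536b7_mp.AllDomains
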